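import Pool.Agent.Helper49.NF.Goals

set_option autoImplicit false

namespace Pool.Agent.Helper42.NF

open Pool.Agent.Helper49.NF

theorem goal_N2X (hLOG : Goal_LOG) : Goal_N2X := by
  obtain ⟨n1, h1⟩ := hLOG (32000 ^ 10) 10
  obtain ⟨n2, h2⟩ := hLOG (800000 ^ 10) 30
  refine ⟨max (max n1 n2) 4, ?_⟩
  intro n hn m K f s hm hK1 hK hf hs
  have hn1 : n1 ≤ n := le_trans (le_trans (le_max_left _ _) (le_max_left _ _)) hn
  have hn2 : n2 ≤ n := le_trans (le_trans (le_max_right _ _) (le_max_left _ _)) hn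
  have hn4 : 4 ≤ n := le_trans (le_max_right _ _) hn
  have hA := h1 n hn1
  have hB := h2 n hn2
  have hpow : n ≤ 2 ^ Lg n := Nat.le_pow_clog one_lt_two n
  have hl1 : 1 ≤ Lg n := by
    have : 0 < Nat.clog 2 n := Nat.clog_pos one_lt_two (by omega)
    exact this
  generalize Lg n = l at *
  refine ⟨by omega, 7 + 3 * (l + 1) + 2 * f + 2 * l * (s + 1), ?_, ?_⟩
  · have hKn : K ≤ n := le_trans (by
      calc K = K ^ 1 := (pow_one K).symm
        _ ≤ K ^ 100 := Nat.pow_le_pow_right hK1 (by norm_num)) hK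
    have hKn2 : K * n ≤ 2 ^ (2 * l) := by
      calc K * n ≤ 2 ^ l * 2 ^ l := Nat.mul_le_mul (hKn.trans hpow) hpow
        _ = 2 ^ (2 * l) := by rw [← pow_add]; congr 1; ring
    have hn1' : n + 1 ≤ 2 ^ (l + 1) := by
      have : 1 ≤ 2 ^ l := Nat.one_le_two_pow
      rw [pow_succ]
      omega
    have e4 : (4 : ℕ) ^ f = 2 ^ (2 * f) := by
      rw [pow_mul]
      norm_num
    have eK : (K * n) ^ (s + 1) ≤ 2 ^ (2 * l * (s + 1)) := by
      rw [pow_mul]
      exact Nat.pow_le_pow_left hKn2 _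
    have en : (n + 1) ^ 2 ≤ 2 ^ (2 * (l + 1)) := by
      calc (n + 1) ^ 2 ≤ (2 ^ (l + 1)) ^ 2 := Nat.pow_le_pow_left hn1' _
        _ = 2 ^ (2 * (l + 1)) := by rw [← pow_mul]; congr 1; ring
    calc 128 * (n + 1) * (4 ^ f * (K * n) ^ (s + 1) * (n + 1) ^ 2)
        ≤ 2 ^ 7 * 2 ^ (l + 1) * (2 ^ (2 * f) * 2 ^ (2 * l * (s + 1)) * 2 ^ (2 * (l + 1))) := by
          rw [e4]
          have e7 : (128 : ℕ) = 2 ^ 7 := by norm_num
          rw [e7]
          exact Nat.mul_le_mul (Nat.mul_le_mul le_rfl hn1')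
            (Nat.mul_le_mul (Nat.mul_le_mul le_rfl eK) en)
      _ = 2 ^ (7 + 3 * (l + 1) + 2 * f + 2 * l * (s + 1)) := by
          rw [← pow_add, ← pow_add, ← pow_add, ← pow_add]
          congr 1
          ring
  · have hnp : 1 ≤ n := by omega
    have hLf : 32000 * (l + 1) * f < m := by
      refine lt_of_pow_lt_pow_left₀ 10 (Nat.zero_le m) ?_
      calc (32000 * (l + 1) * f) ^ 10 = (32000 ^ 10 * (l + 1) ^ 10) * (f ^ 5) ^ 2 := by ring
        _ ≤ n * (n ^ 4) ^ 2 := Nat.mul_le_mul hA (Nat.pow_le_pow_left hf 2)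
        _ = n ^ 9 := by ring
        _ < m ^ 10 := hm
    have hL3 : 800000 * (l + 1) ^ 3 < m := by
      refine lt_of_pow_lt_pow_left₀ 10 (Nat.zero_le m) ?_
      calc (800000 * (l + 1) ^ 3) ^ 10 = 800000 ^ 10 * (l + 1) ^ 30 := by
            rw [mul_pow, ← pow_mul]
        _ ≤ n := hB
        _ = n ^ 1 := (pow_one n).symm
        _ ≤ n ^ 9 := Nat.pow_le_pow_right hnp (by norm_num)
        _ < m ^ 10 := hm
    have hst : s * (7 + 3 * (l + 1) + 2 * f + 2 * l * (s + 1) + 2) ≤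
        (8 * l) * (7 + 3 * (l + 1) + 2 * f + 2 * l * (8 * l + 1) + 2) := by
      refine Nat.mul_le_mul hs ?_
      have : 2 * l * (s + 1) ≤ 2 * l * (8 * l + 1) := Nat.mul_le_mul le_rfl (by omega)
      omega
    have hb : (8 * l) * (7 + 3 * (l + 1) + 2 * f + 2 * l * (8 * l + 1) + 2) ≤
        (8 * (l + 1)) * (2 * f + 50 * (l + 1) ^ 2) := by
      refine Nat.mul_le_mul (by omega) ?_
      nlinarith
    have hfin : 1000 * ((8 * (l + 1)) * (2 * f + 50 * (l + 1) ^ 2)) ≤ m := by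
      nlinarith
    calc 1000 * (s * (7 + 3 * (l + 1) + 2 * f + 2 * l * (s + 1) + 2))
        ≤ 1000 * ((8 * (l + 1)) * (2 * f + 50 * (l + 1) ^ 2)) :=
          Nat.mul_le_mul le_rfl (hst.trans hb)
      _ ≤ m := hfin

end Pool.Agent.Helper42.NF
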